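import Mathlib
import Pool.Agent.V5helper65.EE.Core

set_option autoImplicit false

/-!
# Powers of `e ^ e` and powers of rational numbers near one, explicitly

Let `p > q ≥ 16` and `j ≥ 1` be integers with
`2 ^ 28 (j (p - q) ^ 3) ^ 6 (log log q) ^ 2 ≤ log q`. Then for all integers `m`
`|(e ^ e) ^ j - (p / q) ^ m| ≥ 1 / (q ^ 6 (log q) ^ 5)`.
-/

namespace Pool.Agent.Results.MP_58ae59_nt.ExplicitDistance

open Real

/-- `|e ^ x - e ^ y| ≥ |x - y|` for `x, y ≥ 0` -/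
theorem exp_sub (x y : ℝ) (hx : 0 ≤ x) (hy : 0 ≤ y) : |x - y| ≤ |exp x - exp y| := by
  have key : ∀ a b : ℝ, 0 ≤ b → b ≤ a → a - b ≤ exp a - exp b := by
    intro a b hb hab
    have h1 := Real.add_one_le_exp (a - b)
    have h2 : exp a = exp b * exp (a - b) := by rw [← Real.exp_add]; congr 1; ring
    have h3 : 1 ≤ exp b := Real.one_le_exp hb
    have h4 : exp b * (a - b + 1) ≤ exp b * exp (a - b) :=
      mul_le_mul_of_nonneg_left h1 (exp_pos b).le
    have h5 : 1 * (a - b) ≤ exp b * (a - b) := mul_le_mul_of_nonneg_right h3 (by linarith)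
    rw [h2]
    linarith
  rcases le_total y x with h | h
  · have h1 := key x y hy h
    rw [abs_of_nonneg (by linarith)]
    exact h1.trans (le_abs_self _)
  · have h1 := key y x hx h
    rw [abs_sub_comm x y, abs_sub_comm (exp x), abs_of_nonneg (by linarith)]
    exact h1.trans (le_abs_self _)

/-- upper bound for the denominators -/
theorem q_le_pow (n : ℕ) : Pool.Agent.H43R2.Cplx.EMeas.q n ≤ (4 * n + 4) ^ n ∧
    Pool.Agent.H43R2.Cplx.EMeas.q (n + 1) ≤ (4 * (n + 1) + 4) ^ (n + 1) := by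
  induction n with
  | zero => simp [Pool.Agent.H43R2.Cplx.EMeas.q]
  | succ n ih =>
    refine ⟨ih.2, ?_⟩
    have h1 := ih.2
    have h2 : Pool.Agent.H43R2.Cplx.EMeas.q n ≤ Pool.Agent.H43R2.Cplx.EMeas.q (n + 1) :=
      Pool.Agent.H43R2.Cplx.EMeas.q_mono (by omega)
    have h3 : Pool.Agent.H43R2.Cplx.EMeas.q (n + 1 + 1) =
        (4 * n + 6) * Pool.Agent.H43R2.Cplx.EMeas.q (n + 1) + Pool.Agent.H43R2.Cplx.EMeas.q n := by
      rw [show n + 1 + 1 = n + 2 by ring]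
      simp only [Pool.Agent.H43R2.Cplx.EMeas.q]
    rw [h3]
    calc (4 * n + 6) * Pool.Agent.H43R2.Cplx.EMeas.q (n + 1) + Pool.Agent.H43R2.Cplx.EMeas.q n
        ≤ (4 * n + 7) * Pool.Agent.H43R2.Cplx.EMeas.q (n + 1) := by linarith
      _ ≤ (4 * n + 7) * (4 * (n + 1) + 4) ^ (n + 1) := Nat.mul_le_mul_left _ h1
      _ ≤ (4 * (n + 1 + 1) + 4) * (4 * (n + 1 + 1) + 4) ^ (n + 1) :=
          Nat.mul_le_mul (by omega) (Nat.pow_le_pow_left (by omega) _)
      _ = (4 * (n + 1 + 1) + 4) ^ (n + 1 + 1) := by ring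

/-- the case of natural exponents -/
theorem main (p q m j : ℕ) (hq : 16 ≤ q) (hpq : q < p) (hj : 1 ≤ j)
    (h : 2 ^ 28 * ((j : ℝ) * ((p : ℝ) - q) ^ 3) ^ 6 * Real.log (Real.log q) ^ 2 ≤ Real.log q) :
    1 / ((q : ℝ) ^ 6 * Real.log q ^ 5) ≤
      |Real.exp (Real.exp 1) ^ j - ((p : ℝ) / (q : ℝ)) ^ m| := by
  by_contra hcon
  push Not at hcon
  have he1 := Real.exp_one_gt_d9
  have he2 := Real.exp_one_lt_d9
  obtain ⟨L, hL⟩ : ∃ L : ℝ, L = log q := ⟨_, rfl⟩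
  obtain ⟨l, hl⟩ : ∃ l : ℝ, l = log L := ⟨_, rfl⟩
  rw [← hL, ← hl] at h
  rw [← hL] at hcon
  obtain ⟨k, hk⟩ : ∃ k, p = q + k := ⟨p - q, by omega⟩
  have hk1 : 1 ≤ k := by omega
  have hkR : (1 : ℝ) ≤ k := by exact_mod_cast hk1
  have hjR : (1 : ℝ) ≤ j := by exact_mod_cast hj
  have hpk : (p : ℝ) - q = k := by rw [hk]; push_cast; ring
  rw [hpk] at h
  obtain ⟨S, hS⟩ : ∃ S : ℝ, S = (j : ℝ) * k := ⟨_, rfl⟩
  obtain ⟨T, hT⟩ : ∃ T : ℝ, T = (j : ℝ) * (k : ℝ) ^ 3 := ⟨_, rfl⟩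
  rw [← hT] at h
  have hk3 : (k : ℝ) ≤ (k : ℝ) ^ 3 := by
    have : (k : ℝ) ^ 1 ≤ (k : ℝ) ^ 3 := pow_le_pow_right₀ hkR (by norm_num)
    simpa using this
  have hST : S ≤ T := by
    rw [hS, hT]
    exact mul_le_mul_of_nonneg_left hk3 (by linarith)
  have hS1 : 1 ≤ S := by rw [hS]; nlinarith
  have hT1 : 1 ≤ T := hS1.trans hST
  have hjS : (j : ℝ) ≤ S := by rw [hS]; exact le_mul_of_one_le_right (by linarith) hkR
  have hkS : (k : ℝ) ≤ S := by rw [hS]; exact le_mul_of_one_le_left (by linarith) hjR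
  have hT6 : 1 ≤ T ^ 6 := one_le_pow₀ hT1
  have hTT6 : T ≤ T ^ 6 := by
    have : T ^ 1 ≤ T ^ 6 := pow_le_pow_right₀ hT1 (by norm_num)
    simpa using this
  have hS4 : S ^ 4 ≤ T ^ 6 :=
    (pow_le_pow_left₀ (by linarith) hST 4).trans (pow_le_pow_right₀ hT1 (by norm_num))
  have hS6 : S ^ 6 ≤ T ^ 6 := pow_le_pow_left₀ (by linarith) hST 6
  have hS40 : 1 ≤ S ^ 4 := one_le_pow₀ hS1
  -- the size of `q`
  have hqR : (16 : ℝ) ≤ q := by exact_mod_cast hq
  have hq0 : (0 : ℝ) < q := by linarith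
  have hlog2 := Real.log_two_gt_d9
  have hL3 : exp 1 ≤ L := by
    have h1 : log 16 ≤ L := by rw [hL]; exact Real.log_le_log (by norm_num) hqR
    have h2 : log 16 = 4 * log 2 := by
      rw [show (16 : ℝ) = 2 ^ 4 by norm_num, Real.log_pow]; norm_num
    linarith
  have hL0 : 0 < L := by linarith
  have hl1 : 1 ≤ l := by
    rw [hl, ← Real.log_exp 1]
    exact Real.log_le_log (exp_pos 1) hL3
  have hLbig : 2 ^ 28 ≤ L := by
    have h1 : (1 : ℝ) ≤ T ^ 6 * l ^ 2 := one_le_mul_of_one_le_of_one_le hT6 (one_le_pow₀ hl1)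
    linarith
  have hlbig : 19.4 ≤ l := by
    have h1 : log (2 ^ 28) ≤ l := by rw [hl]; exact Real.log_le_log (by norm_num) hLbig
    rw [Real.log_pow] at h1
    push_cast at h1
    linarith
  have hLl : L = exp l := by rw [hl, exp_log hL0]
  have hT6L : 2 ^ 28 * T ^ 6 ≤ L := by
    have h1 : (1 : ℝ) ≤ l ^ 2 := one_le_pow₀ hl1
    have h2 : 2 ^ 28 * T ^ 6 * 1 ≤ 2 ^ 28 * T ^ 6 * l ^ 2 :=
      mul_le_mul_of_nonneg_left h1 (by positivity)
    linarith
  have hSL1 : S ≤ L := by linarith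
  have hqL : (q : ℝ) = exp L := by rw [hL, exp_log hq0]
  have hq4 : L ^ 4 ≤ 24 * q := by
    have h1 := Real.pow_div_factorial_le_exp L hL0.le 4
    rw [← hqL] at h1
    have h2 : ((Nat.factorial 4 : ℕ) : ℝ) = 24 := by norm_num [Nat.factorial]
    rw [h2, div_le_iff₀ (by norm_num)] at h1
    linarith
  have hL3q : L ^ 3 ≤ q := by
    have h1 : 24 * L ^ 3 ≤ L * L ^ 3 := mul_le_mul_of_nonneg_right (by linarith) (by positivity)
    have h2 : L * L ^ 3 = L ^ 4 := by ring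
    linarith
  have hLL3 : L ≤ L ^ 3 := by
    have : L ^ 1 ≤ L ^ 3 := pow_le_pow_right₀ (by linarith) (by norm_num)
    simpa using this
  have hLq : L ≤ q := hLL3.trans hL3q
  have hkq : (k : ℝ) ≤ q := by linarith
  obtain ⟨c, hc⟩ : ∃ c : ℕ, c = 2 * q + k := ⟨_, rfl⟩
  have hcR : (c : ℝ) = 2 * q + k := by rw [hc]; push_cast; ring
  have hcq : (c : ℝ) ≤ 3 * q := by linarith
  have hqc : (q : ℝ) ≤ c := by linarith
  -- the logarithmic form
  obtain ⟨ε, hε⟩ : ∃ ε : ℝ, ε = j * exp 1 - m * log ((p : ℝ) / q) := ⟨_, rfl⟩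
  have hpqR : 1 ≤ (p : ℝ) / q := by
    rw [le_div_iff₀ hq0, one_mul]
    exact_mod_cast hpq.le
  have hε1 : |ε| ≤ 1 / ((q : ℝ) ^ 6 * L ^ 5) := by
    have h1 := exp_sub (j * exp 1) (m * log ((p : ℝ) / q)) (by positivity)
      (mul_nonneg (by positivity) (Real.log_nonneg hpqR))
    rw [← hε] at h1
    have h2 : exp (j * exp 1) = exp (exp 1) ^ j := by rw [← Real.exp_nat_mul]
    have h3 : exp (m * log ((p : ℝ) / q)) = ((p : ℝ) / q) ^ m := by
      rw [Real.exp_nat_mul, exp_log (by linarith)]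
    rw [h2, h3] at h1
    exact h1.trans hcon.le
  have hlog : (m : ℝ) * log (((c : ℝ) + k) / ((c : ℝ) - k)) = j * exp 1 - ε := by
    have h1 : ((c : ℝ) + k) / ((c : ℝ) - k) = (p : ℝ) / q := by
      rw [hcR, hk]
      push_cast
      have e1 : (2 * (q : ℝ) + k + k) = 2 * (q + k) := by ring
      have e2 : (2 * (q : ℝ) + k - k) = 2 * q := by ring
      rw [e1, e2, mul_div_mul_left _ _ (by norm_num)]
    rw [h1, hε]
    ring
  -- the parameters
  obtain ⟨τ, hτ⟩ : ∃ τ : ℝ, τ = 1 / (10 ^ 6 * S ^ 4 * (16 * L) ^ 3) := ⟨_, rfl⟩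
  have hτ0 : 0 < τ := by rw [hτ]; positivity
  have hτ1 : 10 ^ 6 * S ^ 4 * (16 * L) ^ 3 * τ = 1 := by
    rw [hτ]; field_simp
  obtain ⟨n0, hn0⟩ : ∃ n0 : ℕ, n0 = ⌊L / (2 * l)⌋₊ := ⟨_, rfl⟩
  have hn0le : (n0 : ℝ) ≤ L / (2 * l) := by rw [hn0]; exact Nat.floor_le (by positivity)
  have hn0ge : L / (2 * l) - 1 ≤ n0 := by
    have := Nat.lt_floor_add_one (L / (2 * l))
    rw [← hn0] at this
    linarith
  have hn0L : (n0 : ℝ) ≤ L := by
    refine hn0le.trans (div_le_self hL0.le (by linarith))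
  have hqn0 : Pool.Agent.H43R2.Cplx.EMeas.q n0 ≤ c := by
    have h1 : (Pool.Agent.H43R2.Cplx.EMeas.q n0 : ℝ) ≤ (4 * (n0 : ℝ) + 4) ^ n0 := by
      exact_mod_cast (q_le_pow n0).1
    have h2 : (4 * (n0 : ℝ) + 4) ≤ exp (2 * l) := by
      have e1 : exp (2 * l) = L * L := by rw [hLl, ← Real.exp_add]; congr 1; ring
      rw [e1]
      nlinarith
    have h3 : (4 * (n0 : ℝ) + 4) ^ n0 ≤ q := by
      calc (4 * (n0 : ℝ) + 4) ^ n0 ≤ exp (2 * l) ^ n0 := pow_le_pow_left₀ (by positivity) h2 n0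
        _ = exp (n0 * (2 * l)) := by rw [← Real.exp_nat_mul]
        _ ≤ exp L := by
          apply exp_le_exp.2
          rwa [le_div_iff₀ (by linarith)] at hn0le
        _ = q := hqL.symm
    exact_mod_cast (h1.trans h3).trans hqc
  refine Pool.Agent.V5helper65.EE.core2 l (by linarith) j k c m n0 ?_ ε τ hj hk1 ?_ hqn0 ?_ ?_ ?_
    ?_ ?_ hlog
  · intro n hn
    have h1 : (2 : ℝ) ^ n < 576 * T ^ 2 := by
      rw [hT]
      exact_mod_cast hn
    have h2 : n * log 2 < log 576 + 2 * log T := by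
      have e1 := Real.log_lt_log (by positivity) h1
      rw [Real.log_pow, Real.log_mul (by norm_num) (by positivity), Real.log_pow] at e1
      push_cast at e1
      exact e1
    have h3 : 6 * log T ≤ l := by
      have e1 : T ^ 6 ≤ L := by linarith
      have e2 := Real.log_le_log (by positivity) e1
      rw [Real.log_pow, ← hl] at e2
      push_cast at e2
      exact e2
    have h4 : log 576 ≤ 9.3 * log 2 := by
      have e1 : (576 : ℝ) ^ 10 ≤ 2 ^ 93 := by norm_num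
      have e2 := Real.log_le_log (by positivity) e1
      rw [Real.log_pow, Real.log_pow] at e2
      push_cast at e2
      linarith
    have h5 : (n : ℝ) * log 2 ≤ l * log 2 := by nlinarith
    exact le_of_mul_le_mul_right h5 (by linarith)
  · have : k ≤ q := by exact_mod_cast hkq
    omega
  · rw [← hT]
    have h1 : 2 ^ 27 * T ^ 6 * l ≤ L / (2 * l) := by
      rw [le_div_iff₀ (by linarith)]
      linarith
    have h2 : 1 ≤ T ^ 6 * l := one_le_mul_of_one_le_of_one_le hT6 hl1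
    have h3 : 19.4 * T ^ 6 ≤ T ^ 6 * l := by
      have := mul_le_mul_of_nonneg_left hlbig (show 0 ≤ T ^ 6 by positivity)
      linarith
    linarith
  · have h1 : 4 * (q : ℝ) ^ 2 ≤ (c : ℝ) ^ 2 := by
      have e1 : (2 * (q : ℝ)) ^ 2 ≤ (c : ℝ) ^ 2 := pow_le_pow_left₀ (by positivity) (by linarith) 2
      linarith
    have h2 : (L ^ 3) ^ 2 ≤ (q : ℝ) ^ 2 := pow_le_pow_left₀ (by positivity) hL3q 2
    have h3 : (k : ℝ) ^ 2 * (10 ^ 6 * S ^ 4 * (16 * L) ^ 3) ≤ (c : ℝ) ^ 2 := by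
      have e1 : (k : ℝ) ^ 2 * S ^ 4 ≤ T ^ 6 := by
        calc (k : ℝ) ^ 2 * S ^ 4 ≤ S ^ 2 * S ^ 4 :=
              mul_le_mul_of_nonneg_right (pow_le_pow_left₀ (by linarith) hkS 2) (by positivity)
          _ = S ^ 6 := by ring
          _ ≤ T ^ 6 := hS6
      have e2 : (k : ℝ) ^ 2 * (10 ^ 6 * S ^ 4 * (16 * L) ^ 3) =
          4096000000 * ((k : ℝ) ^ 2 * S ^ 4) * L ^ 3 := by ring
      have e3 : 4096000000 * ((k : ℝ) ^ 2 * S ^ 4) ≤ L ^ 3 := by
        have f1 : 4096000000 * ((k : ℝ) ^ 2 * S ^ 4) ≤ 4096000000 * T ^ 6 := by linarith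
        have f2 : 4096000000 * T ^ 6 ≤ 16 * L := by linarith
        have f3 : 16 * L ≤ L ^ 2 * L := by
          apply mul_le_mul_of_nonneg_right _ hL0.le
          nlinarith
        have f4 : L ^ 2 * L = L ^ 3 := by ring
        linarith
      have e4 : 4096000000 * ((k : ℝ) ^ 2 * S ^ 4) * L ^ 3 ≤ L ^ 3 * L ^ 3 :=
        mul_le_mul_of_nonneg_right e3 (by positivity)
      have e5 : L ^ 3 * L ^ 3 = (L ^ 3) ^ 2 := by ring
      have e6 : 0 ≤ (q : ℝ) ^ 2 := by positivity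
      rw [e2]
      linarith
    have h4 := mul_le_mul_of_nonneg_right h3 hτ0.le
    calc (k : ℝ) ^ 2 = (k : ℝ) ^ 2 * (10 ^ 6 * S ^ 4 * (16 * L) ^ 3) * τ := by
          rw [mul_assoc, hτ1, mul_one]
      _ ≤ (c : ℝ) ^ 2 * τ := h4
      _ = τ * (c : ℝ) ^ 2 := by ring
  · have h1 : (c : ℝ) ^ 6 ≤ (3 * q) ^ 6 := pow_le_pow_left₀ (by linarith) hcq 6
    have h2 : (c : ℝ) ^ 6 * |ε| ≤ (3 * q) ^ 6 * (1 / ((q : ℝ) ^ 6 * L ^ 5)) :=
      mul_le_mul h1 hε1 (abs_nonneg _) (by positivity)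
    have h3 : (3 * (q : ℝ)) ^ 6 * (1 / ((q : ℝ) ^ 6 * L ^ 5)) = 729 / L ^ 5 := by
      field_simp
      norm_num
    rw [h3] at h2
    refine h2.trans ?_
    rw [hτ, div_le_div_iff₀ (by positivity) (by positivity)]
    have h4 : 729 * (10 ^ 6 * S ^ 4 * 16 ^ 3) ≤ L ^ 2 := by
      have f1 : 729 * (10 ^ 6 * S ^ 4 * 16 ^ 3) ≤ 11200 * L := by linarith
      have f2 : 11200 * L ≤ L * L := mul_le_mul_of_nonneg_right (by linarith) hL0.le
      have f3 : L * L = L ^ 2 := by ring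
      linarith
    have h5 := mul_le_mul_of_nonneg_right h4 (show 0 ≤ L ^ 3 by positivity)
    calc 729 * (10 ^ 6 * S ^ 4 * (16 * L) ^ 3) = 729 * (10 ^ 6 * S ^ 4 * 16 ^ 3) * L ^ 3 := by ring
      _ ≤ L ^ 2 * L ^ 3 := h5
      _ = 1 * L ^ 5 := by ring
  · have h1 : (n0 : ℝ) ≤ 10 ^ 6 * S ^ 4 * (16 * L) ^ 3 := by
      have e1 : (10 ^ 6 * 4096) * L ^ 3 * 1 ≤ (10 ^ 6 * 4096) * L ^ 3 * S ^ 4 :=
        mul_le_mul_of_nonneg_left hS40 (by positivity)
      have e2 : 0 ≤ L ^ 3 := by positivity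
      have e3 : 10 ^ 6 * S ^ 4 * (16 * L) ^ 3 = (10 ^ 6 * 4096) * L ^ 3 * S ^ 4 := by ring
      rw [e3]
      linarith
    have h2 := mul_le_mul_of_nonneg_right h1 hτ0.le
    rw [hτ1] at h2
    linarith
  · intro n hn
    rw [← hS]
    have hn1 : (n : ℝ) + 1 ≤ 4 * L := by
      rcases Nat.eq_zero_or_pos n with h0 | h0
      · rw [h0]; push_cast; linarith
      · have h1 := Pool.Agent.H43R2.Cplx.EMeas.q_growth (n - 1)
        rw [show n - 1 + 1 = n by omega] at h1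
        have h2 : (2 : ℝ) ^ (n - 1) ≤ j * c := by exact_mod_cast h1.trans hn
        have h3 : (j : ℝ) * c ≤ exp (2 * L + 2) := by
          have e1 : (j : ℝ) * c ≤ q * (3 * q) := mul_le_mul (by linarith) hcq (by linarith) hq0.le
          have e2 : exp (2 * L + 2) = q * q * exp 2 := by
            rw [hqL, ← Real.exp_add, ← Real.exp_add]; congr 1; ring
          have e3 : (3 : ℝ) ≤ exp 2 := by
            have := Real.add_one_le_exp (2 : ℝ)
            linarith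
          have e4 : (q : ℝ) * q * 3 ≤ q * q * exp 2 := mul_le_mul_of_nonneg_left e3 (by positivity)
          rw [e2]
          linarith
        have h4 := Real.log_le_log (by positivity) (h2.trans h3)
        rw [Real.log_pow, Real.log_exp] at h4
        have h5 : ((n - 1 : ℕ) : ℝ) = n - 1 := by
          rw [Nat.cast_sub (by omega)]; simp
        rw [h5] at h4
        have h7 : (0 : ℝ) ≤ (n : ℝ) - 1 := by
          have : (1 : ℝ) ≤ n := by exact_mod_cast h0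
          linarith
        have h8 : ((n : ℝ) - 1) * 0.69 ≤ ((n : ℝ) - 1) * log 2 :=
          mul_le_mul_of_nonneg_left (by linarith) h7
        linarith
    have h1 : (4 * (n : ℝ) + 4) ^ 3 ≤ (16 * L) ^ 3 := pow_le_pow_left₀ (by positivity) (by linarith) 3
    calc 10 ^ 6 * S ^ 4 * τ * (4 * (n : ℝ) + 4) ^ 3 ≤ 10 ^ 6 * S ^ 4 * τ * (16 * L) ^ 3 :=
          mul_le_mul_of_nonneg_left h1 (by positivity)
      _ = 10 ^ 6 * S ^ 4 * (16 * L) ^ 3 * τ := by ring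
      _ ≤ 1 := hτ1.le

/-- Let `p > q ≥ 16` and `j ≥ 1` be integers with
`2 ^ 28 (j (p - q) ^ 3) ^ 6 (log log q) ^ 2 ≤ log q`. For all integers `m` the distance of
`(e ^ e) ^ j` and `(p / q) ^ m` is at least `1 / (q ^ 6 (log q) ^ 5)`. -/
theorem result (p q j : ℕ) (hq : 16 ≤ q) (hpq : q < p) (hj : 1 ≤ j)
    (h : 2 ^ 28 * ((j : ℝ) * ((p : ℝ) - q) ^ 3) ^ 6 * Real.log (Real.log q) ^ 2 ≤ Real.log q)
    (m : ℤ) : 1 / ((q : ℝ) ^ 6 * Real.log q ^ 5) ≤
      |Real.exp (Real.exp 1) ^ j - ((p : ℝ) / (q : ℝ)) ^ m| := by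
  obtain ⟨n, rfl | rfl⟩ := m.eq_nat_or_neg
  · rw [zpow_natCast]
    exact main p q n j hq hpq hj h
  · have hqR : (16 : ℝ) ≤ q := by exact_mod_cast hq
    have hpqR : 1 ≤ (p : ℝ) / q := by
      rw [le_div_iff₀ (by linarith), one_mul]
      exact_mod_cast hpq.le
    have he1 := Real.exp_one_gt_d9
    have h1 : ((p : ℝ) / (q : ℝ)) ^ (-(n : ℤ)) ≤ 1 := by
      rw [zpow_neg, zpow_natCast]
      exact inv_le_one_of_one_le₀ (one_le_pow₀ hpqR)
    have h2 : 2 ≤ Real.exp (Real.exp 1) ^ j := by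
      have e1 := Real.add_one_le_exp (Real.exp 1)
      have e2 : Real.exp (Real.exp 1) ^ 1 ≤ Real.exp (Real.exp 1) ^ j :=
        pow_le_pow_right₀ (by linarith) hj
      rw [pow_one] at e2
      linarith
    have h3 : 1 ≤ Real.log q := by
      rw [Real.le_log_iff_exp_le (by linarith)]
      have := Real.exp_one_lt_d9
      linarith
    have h4 : 1 / ((q : ℝ) ^ 6 * Real.log q ^ 5) ≤ 1 := by
      rw [div_le_one (by positivity)]
      exact one_le_mul_of_one_le_of_one_le (one_le_pow₀ (by linarith)) (one_le_pow₀ h3)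
    refine h4.trans (le_trans ?_ (le_abs_self _))
    linarith

end Pool.Agent.Results.MP_58ae59_nt.ExplicitDistance
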