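import Mathlib
import Pool.Agent.R473.JC.Final
import Pool.Agent.R473.JC.Pairs
import Pool.Agent.Results.MP_e48a95_nt.JointAlgebraicComplexity

set_option autoImplicit false

/-!
# Joint measures and algebraic relations between the digits of `e^e` and of `exp (x e + y)`

We consider the numbers `exp (x e + y)`, `x` and `y` rational, in particular `e^e`. Two of them, `exp (x e + y)` and
`exp (z e + w)`, are independent if `x w ≠ y z`; for instance `e^e` and `exp (e + q)`, `q ≠ 0`.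

(1) For any two independent numbers `u`, `v` and every `D` there are `κ, c > 0` with `max (|P(u)|, |Q(v)|) ≥ c H ^ (-κ)`
for all nonzero integer polynomials `P`, `Q` of degree at most `D` with coefficients of absolute value at most `H`.

`S(X) = s_1 X + ⋯ + s_L X^L`, where the `s_i` are the digits of a real number `x` in base `b` after at most `K` of
them have been changed. The `K`-error algebraic complexity `N_b(x) = N_b(x; r, K, L)` is the least `k` such that
`X^(L+1)` divides `P(X, S(X))` for some nonzero polynomial `P(X, Y)` of degree at most `r` in `Y` and at most `k` in `X`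
and some such choice of `S`; for `r = 1` this is essentially the linear complexity.

(2) For any two independent numbers `u`, `v` and every `r` there is `A ≥ 1` such that for all bases `β, β'`, all lengths
`L, L'` and all numbers of errors `K, K'`
`min (L log β, L' log β') ≤ A^(K+K'+1) ((N_β(u) + 1) log β + (N_β'(v) + 1) log β')`.

(3) For every finite set `E` of pairwise independent numbers and every `r` there is `c > 0` such that for all bases `b`,
all `K` and all `L` all numbers `u` in `E`, with at most one exception, satisfy `N_b(u) + 1 ≥ c^(K+1) L`.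

(4) So for every rational `q ≠ 0` and all `r` there is `c > 0` such that `c^(K+1) L ≤ N_b(e^e) + N_b(exp (e + q)) + 2`
for all `b, K, L`.
-/

namespace Pool.Agent.Results.MP_58ae59_nt.JointComplexity

open Finset Polynomial
open Pool.Agent.Results.MP_e48a95_nt.JointAlgebraicComplexity (digit seqPoly Near AlgRelation complexity Bound
  JointMeasure)

/-- the real number `exp (x e + y)` -/
noncomputable def ex (p : ℚ × ℚ) : ℝ := Real.exp (p.1 * Real.exp 1 + p.2)

/-- the pairs `(x, y)`, `(z, w)` are not proportional: `x w ≠ y z` -/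
def Indep (p r : ℚ × ℚ) : Prop := p.1 * r.2 ≠ p.2 * r.1

section alg

variable {R : Type} [CommRing R] [IsDomain R] [Algebra R ℝ]

lemma smul_alg {x : ℝ} (h : IsAlgebraic R (Real.exp x)) (s : ℚ) : IsAlgebraic R (Real.exp (s * x)) := by
  have h1 : Real.exp (s * x) ^ s.den = Real.exp x ^ s.num := by
    rw [← Real.exp_nat_mul, ← Real.rpow_intCast, ← Real.exp_mul]
    congr 1
    have h0 : (s : ℝ) = (s.num : ℝ) / (s.den : ℝ) := Rat.cast_def s
    have hd : ((s.den : ℕ) : ℝ) ≠ 0 := by exact_mod_cast s.den_nz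
    rw [h0]
    field_simp
  have h2 : IsAlgebraic R (Real.exp (s * x) ^ s.den) := by
    rw [h1]
    rcases s.num.eq_nat_or_neg with ⟨n, hn | hn⟩
    · rw [hn, zpow_natCast]
      exact h.pow n
    · rw [hn, zpow_neg, zpow_natCast]
      exact (h.pow n).inv
  exact h2.of_pow s.den_pos

lemma e_alg {p r : ℚ × ℚ} (h : Indep p r) (h1 : IsAlgebraic R (ex p)) (h2 : IsAlgebraic R (ex r)) :
    IsAlgebraic R (Real.exp 1) := by
  have e1 := smul_alg h1 r.1
  have e2 := smul_alg h2 p.1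
  have e3 := e1.mul e2.inv
  rw [← div_eq_mul_inv, ← Real.exp_sub] at e3
  obtain ⟨q, hq⟩ : ∃ q : ℚ, q = p.2 * r.1 - p.1 * r.2 := ⟨_, rfl⟩
  have hq0 : q ≠ 0 := by
    rw [hq]
    exact sub_ne_zero.2 (Ne.symm h)
  have e4 : (r.1 : ℝ) * (p.1 * Real.exp 1 + p.2) - p.1 * (r.1 * Real.exp 1 + r.2) = (q : ℝ) := by
    rw [hq]
    push_cast
    ring
  rw [e4] at e3
  have e5 := smul_alg e3 q⁻¹
  have hq' : (q : ℝ) ≠ 0 := by exact_mod_cast hq0
  rwa [Rat.cast_inv, inv_mul_cancel₀ hq'] at e5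

end alg

theorem joint {p r : ℚ × ℚ} (h : Indep p r) : Pool.Agent.R356.JointR (ex p) (ex r) := by
  refine Pool.Agent.R473.JC.jointR_of_alg (Real.exp 1) Pool.Agent.TH456.TM.measT_e _ _ ?_
  have hu : ex p ∈ Algebra.adjoin ℤ ({ex p, ex r} : Set ℝ) := Algebra.subset_adjoin (Or.inl rfl)
  have hv : ex r ∈ Algebra.adjoin ℤ ({ex p, ex r} : Set ℝ) := Algebra.subset_adjoin (Or.inr rfl)
  exact e_alg (R := Algebra.adjoin ℤ ({ex p, ex r} : Set ℝ)) h
    (isAlgebraic_algebraMap (⟨_, hu⟩ : Algebra.adjoin ℤ ({ex p, ex r} : Set ℝ)))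
    (isAlgebraic_algebraMap (⟨_, hv⟩ : Algebra.adjoin ℤ ({ex p, ex r} : Set ℝ)))

theorem part3 (E : Finset (ℚ × ℚ)) (hE : ∀ p ∈ E, ∀ r ∈ E, p ≠ r → Indep p r) (r : ℕ) :
    ∃ c : ℝ, 0 < c ∧ ∀ b : ℕ, 2 ≤ b → ∀ K L : ℕ,
      {p | p ∈ E ∧ (complexity b (ex p) r K L : ℝ) + 1 < c ^ (K + 1) * L}.Subsingleton := by
  obtain ⟨A, hA, hfam⟩ := Pool.Agent.R473.JC.family (ι := E) (fun u => ex u.1)
    (fun i j hij => joint (hE i.1 i.2 j.1 j.2 fun h => hij (Subtype.ext h))) r
  have hA0 : 0 < A := by linarith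
  refine ⟨1 / A ^ 2 / 2, by positivity, fun b hb K L u hu v hv => ?_⟩
  by_contra hne
  have h1 := Pool.Agent.Results.MP_e48a95_nt.JointAlgebraicComplexity.one_base (ex u) (ex v) A hA r
    (fun b b' hb hb' K K' L L' =>
      hfam ⟨u, hu.1⟩ ⟨v, hv.1⟩ (fun h => hne (congrArg Subtype.val h)) b b' hb hb' K K' L L') b hb K L
  have h2 := hu.2
  have h3 := hv.2
  have h4 : (1 / A ^ 2 / 2) ^ (K + 1) * (L : ℝ) ≤ (1 / A ^ 2) ^ (K + 1) * L / 2 := by
    rw [div_pow (1 / A ^ 2) 2]
    have h5 : (2 : ℝ) ≤ 2 ^ (K + 1) := by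
      rw [pow_succ]
      have : (1 : ℝ) ≤ 2 ^ K := one_le_pow₀ (by norm_num)
      linarith
    have h6 : 0 ≤ (1 / A ^ 2) ^ (K + 1) * (L : ℝ) := by positivity
    rw [div_mul_eq_mul_div]
    exact div_le_div_of_nonneg_left h6 (by norm_num) h5
  linarith

/-- see the text at the beginning of the file -/
theorem result :
    -- (1)
    (∀ p r : ℚ × ℚ, Indep p r → JointMeasure (ex p) (ex r)) ∧
    -- (2)
    (∀ p r : ℚ × ℚ, Indep p r → ∀ s : ℕ, ∃ A : ℝ, 1 ≤ A ∧ Bound A s (ex p) (ex r)) ∧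
    -- (3)
    (∀ E : Finset (ℚ × ℚ), (∀ p ∈ E, ∀ r ∈ E, p ≠ r → Indep p r) → ∀ s : ℕ, ∃ c : ℝ, 0 < c ∧
      ∀ b : ℕ, 2 ≤ b → ∀ K L : ℕ,
        {p | p ∈ E ∧ (complexity b (ex p) s K L : ℝ) + 1 < c ^ (K + 1) * L}.Subsingleton) ∧
    -- (4)
    ∀ q : ℚ, q ≠ 0 → JointMeasure (Real.exp (Real.exp 1)) (Real.exp (Real.exp 1 + q)) ∧
      ∀ s : ℕ, ∃ c : ℝ, 0 < c ∧ ∀ b : ℕ, 2 ≤ b → ∀ K L : ℕ,
        c ^ (K + 1) * L ≤ complexity b (Real.exp (Real.exp 1)) s K L +
          complexity b (Real.exp (Real.exp 1 + q)) s K L + 2 := by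
  refine ⟨fun p r h => joint h, fun p r h s => Pool.Agent.R473.JC.pair _ _ (joint h) s,
    fun E hE s => part3 E hE s, fun q hq => ?_⟩
  have h : Pool.Agent.R356.JointR (ex (1, 0)) (ex (1, q)) := by
    apply joint
    show (1 : ℚ) * q ≠ 0 * 1
    rw [one_mul, zero_mul]
    exact hq
  have e1 : ex (1, 0) = Real.exp (Real.exp 1) := by
    rw [ex]
    push_cast
    rw [one_mul, add_zero]
  have e2 : ex (1, q) = Real.exp (Real.exp 1 + q) := by
    rw [ex]
    push_cast
    rw [one_mul]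
  rw [e1, e2] at h
  refine ⟨h, fun s => ?_⟩
  obtain ⟨A, hA, hB⟩ := Pool.Agent.R473.JC.pair _ _ h s
  exact ⟨1 / A ^ 2, by have : 0 < A := by linarith
                       positivity, fun b hb K L =>
    Pool.Agent.Results.MP_e48a95_nt.JointAlgebraicComplexity.one_base _ _ A hA s hB b hb K L⟩

end Pool.Agent.Results.MP_58ae59_nt.JointComplexity
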