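import Mathlib
import Pool.Agent.Results.MP_e48a95_nt.SeveralBases

set_option autoImplicit false

/-!
# `e^e` and the numbers `exp (a e + b)` in independent bases

For an infinite set `S` of integers and a set `A` of bases let `K_A` (`lowField S A`) be the field generated by all
real numbers with `O(m)` different blocks of `m` digits, `m ∈ S`, in some base of `A`. Let `A_i`, `i ∈ I`, be sets of
bases such that the subgroups of the multiplicative group of `ℚ` generated by `A_i` and `A_j` have a trivial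
intersection for `i ≠ j` (for instance `A_i = {b_i}` with pairwise multiplicatively independent `b_i`).

(1) For all but at most one `i ∈ I` the field `K = K_(A_i)` is free: for all rational `a, b, c, d` with `a d ≠ b c` and
all `α, β ≠ 0` algebraic over `K` the numbers `α exp (a e + b)`, `β exp (c e + d)` are not both algebraic over `K` (so at
most one of the numbers `exp (e + q)`, `q` rational, is), and for every rational `q ≠ 0` at most one of the numbers
`e^e + x exp q`, `x` algebraic over `K`, is algebraic over `K`.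

(2) Let `b`, `b'` be multiplicatively independent bases and `P` a finite set of numbers `α exp (x e + y)`, `x, y`
rational, `α ≠ 0` real algebraic. For every `C` and all large `m` there is one base `d ∈ {b, b'}` such that of any two
numbers of `P` with non-proportional `(x, y)` one has more than `C m` different blocks of `m` digits in base `d`.

(3) If `e^e` is algebraic (for instance rational) and `y ≠ 0` for all numbers of `P`, then for every `C` and all large `m`
all numbers of `P` have more than `C m` blocks of `m` digits in one of the bases `b`, `b'`.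

(4) A criterion for `e^e`: if for some rational `q ≠ 0` and some `C` there are infinitely many `m` such that
`exp (e + q)` has at most `C m` blocks of `m` digits in both bases `b` and `b'`, then `e^e` is transcendental.
-/

namespace Pool.Agent.Results.MP_58ae59_nt.TwoBases

open Filter
open Pool.Agent.Results.MP_e48a95_nt.SeveralBases (blocks lowField group Independent Linked)

/-- the real number `exp (a e + b)`; `ex 1 0` is `e^e` -/
noncomputable def ex (a b : ℚ) : ℝ := Real.exp (a * Real.exp 1 + b)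

/-- the two properties of part (1) -/
def Free (K : Subfield ℝ) : Prop :=
  (∀ a b c d : ℚ, a * d ≠ b * c → ∀ α β : ℝ, IsAlgebraic K α → IsAlgebraic K β → α ≠ 0 → β ≠ 0 →
    Transcendental K (α * ex a b) ∨ Transcendental K (β * ex c d)) ∧
  ∀ q : ℚ, q ≠ 0 → {x : ℝ | IsAlgebraic K x ∧
    IsAlgebraic K (Real.exp (Real.exp 1) + x * Real.exp q)}.Subsingleton

lemma ex_one_zero : ex 1 0 = Real.exp (Real.exp 1) := by
  rw [ex]
  push_cast
  rw [one_mul, add_zero]

section alg

variable {F : Type} [Field F] [Algebra F ℝ]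

lemma smul_mem {x : ℝ} (h : Real.exp x ∈ algebraicClosure F ℝ) (s : ℚ) :
    Real.exp (s * x) ∈ algebraicClosure F ℝ := by
  have hd : ((s.den : ℕ) : ℝ) ≠ 0 := by exact_mod_cast s.den_nz
  have h1 : Real.exp (s * x) ^ s.den = Real.exp x ^ s.num := by
    rw [← Real.exp_nat_mul, ← Real.rpow_intCast, ← Real.exp_mul]
    congr 1
    have h0 : (s : ℝ) = (s.num : ℝ) / (s.den : ℝ) := Rat.cast_def s
    rw [h0]
    field_simp
  have h2 : Real.exp (s * x) ^ s.den ∈ algebraicClosure F ℝ := by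
    rw [h1]
    exact zpow_mem h _
  exact mem_algebraicClosure_iff.2 ((mem_algebraicClosure_iff.1 h2).of_pow s.den_pos)

lemma e_of_exp {q : ℚ} (hq : q ≠ 0) (h : Real.exp q ∈ algebraicClosure F ℝ) : IsAlgebraic F (Real.exp 1) := by
  have h1 := smul_mem h q⁻¹
  have hq' : (q : ℝ) ≠ 0 := by exact_mod_cast hq
  rw [Rat.cast_inv, inv_mul_cancel₀ hq'] at h1
  exact mem_algebraicClosure_iff.1 h1

lemma mem_of_mul {α : ℝ} (hα : IsAlgebraic F α) (hα0 : α ≠ 0) {a b : ℚ} (h : IsAlgebraic F (α * ex a b)) :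
    Real.exp (a * Real.exp 1 + b) ∈ algebraicClosure F ℝ := by
  have := (algebraicClosure F ℝ).div_mem (mem_algebraicClosure_iff.2 h : _ ∈ algebraicClosure F ℝ)
    (mem_algebraicClosure_iff.2 hα : α ∈ algebraicClosure F ℝ)
  rwa [mul_comm, mul_div_assoc, div_self hα0, mul_one] at this

lemma e_of_two {α β : ℝ} (hα : IsAlgebraic F α) (hβ : IsAlgebraic F β) (hα0 : α ≠ 0) (hβ0 : β ≠ 0)
    {a b c d : ℚ} (h : a * d ≠ b * c) (h1 : IsAlgebraic F (α * ex a b)) (h2 : IsAlgebraic F (β * ex c d)) :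
    IsAlgebraic F (Real.exp 1) := by
  have e1 := smul_mem (mem_of_mul hα hα0 h1) c
  have e2 := smul_mem (mem_of_mul hβ hβ0 h2) a
  have e3 := (algebraicClosure F ℝ).div_mem e1 e2
  rw [← Real.exp_sub] at e3
  have e4 : (c : ℝ) * (a * Real.exp 1 + b) - a * (c * Real.exp 1 + d) = ((b * c - a * d : ℚ) : ℝ) := by
    push_cast
    ring
  rw [e4] at e3
  exact e_of_exp (sub_ne_zero.2 (Ne.symm h)) e3

lemma e_of_one {α : ℝ} (hα : IsAlgebraic F α) (hα0 : α ≠ 0) {a b : ℚ} (hb : b ≠ 0)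
    (hee : IsAlgebraic F (Real.exp (Real.exp 1))) (h : IsAlgebraic F (α * ex a b)) :
    IsAlgebraic F (Real.exp 1) := by
  have e1 := mem_of_mul hα hα0 h
  have e2 := smul_mem (mem_algebraicClosure_iff.2 hee : _ ∈ algebraicClosure F ℝ) a
  have e3 := (algebraicClosure F ℝ).div_mem e1 e2
  rw [← Real.exp_sub, add_sub_cancel_left] at e3
  exact e_of_exp hb e3

end alg

theorem free_of {K : Subfield ℝ} (hK : Transcendental K (Real.exp 1)) : Free K := by
  refine ⟨fun a b c d h α β hα hβ hα0 hβ0 => ?_, fun q hq x hx y hy => ?_⟩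
  · by_contra hcon
    unfold Transcendental at hcon
    push Not at hcon
    exact hK (e_of_two hα hβ hα0 hβ0 h hcon.1 hcon.2)
  · by_contra hne
    have h1 : IsAlgebraic K ((Real.exp (Real.exp 1) + x * Real.exp q) -
        (Real.exp (Real.exp 1) + y * Real.exp q)) := hx.2.sub hy.2
    have h2 : IsAlgebraic K (x - y) := hx.1.sub hy.1
    have h3 : Real.exp q = ((Real.exp (Real.exp 1) + x * Real.exp q) -
        (Real.exp (Real.exp 1) + y * Real.exp q)) * (x - y)⁻¹ := by
      rw [eq_mul_inv_iff_mul_eq₀ (sub_ne_zero.2 hne)]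
      ring
    apply hK
    apply e_of_exp hq
    rw [h3]
    exact mem_algebraicClosure_iff.2 (h1.mul h2.inv)

theorem pair {S : Set ℕ} (hS : S.Infinite) {A B : Set ℕ} (hA : ∀ b ∈ A, 2 ≤ b)
    (hB : ∀ b ∈ B, 2 ≤ b) (h : group A ⊓ group B = ⊥) :
    Transcendental (lowField S A) (Real.exp 1) ∨ Transcendental (lowField S B) (Real.exp 1) := by
  have hm : Pool.Agent.TH456.TM.MeasT ((Real.exp 1 : ℝ) : ℂ) :=
    Pool.Agent.TH796.AL.Ai.measT_of (Or.inl rfl)
  rcases Pool.Agent.TH796.AL.Alg.free_pair (Pool.Agent.TH796.AL.Alg.transc_of_measT hm)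
    (Pool.Agent.TH796.AL.Ai.not_unumber hm) hA hB h hS with h | h
  · exact Or.inl h.1
  · exact Or.inr h.1

/-- two bases, pairs of numbers over which `e` is algebraic -/
theorem pairs {b b' : ℕ} (hb : 2 ≤ b) (hb' : 2 ≤ b') (hbb : Independent b b') (L : Finset (ℝ × ℝ))
    (hL : ∀ l ∈ L, Linked ℚ (Real.exp 1) l.1 l.2) (C : ℝ) : ∀ᶠ m : ℕ in atTop, ∃ d, (d = b ∨ d = b') ∧
      ∀ l ∈ L, C * m < max (blocks d l.1 m : ℝ) (blocks d l.2 m) := by
  classical
  have h2b : ∀ i : Fin 2, 2 ≤ (![b, b'] : Fin 2 → ℕ) i := by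
    intro i
    fin_cases i
    · exact hb
    · exact hb'
  have hind : ∀ i j : Fin 2, i ≠ j → Independent ((![b, b'] : Fin 2 → ℕ) i) ((![b, b'] : Fin 2 → ℕ) j) := by
    intro i j hij
    fin_cases i <;> fin_cases j
    · exact absurd rfl hij
    · exact hbb
    · exact fun k l h => (hbb l k h.symm).symm
    · exact absurd rfl hij
  have h := Pool.Agent.V5helper62.TB.digits (I := Fin 2) blocks ![b, b'] (L.image fun l => (Real.exp 1, l)) (by
      intro l hl
      rw [Finset.mem_image] at hl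
      obtain ⟨l', hl', rfl⟩ := hl
      exact hL l' hl') (by
      intro S hS z hz i j hij
      have hz' : z = Real.exp 1 := by
        rw [Finset.mem_image] at hz
        obtain ⟨l, hl, rfl⟩ := hz
        rw [Finset.mem_image] at hl
        obtain ⟨l', -, rfl⟩ := hl
        rfl
      rw [hz']
      exact pair hS (by simpa using h2b i) (by simpa using h2b j)
        (Pool.Agent.TH796.AL.Ai.group_inf (h2b i) (h2b j) (hind i j hij))) (by
      rw [Fintype.card_fin, Finset.image_image]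
      have h1 : L.image (Prod.fst ∘ fun l : ℝ × ℝ => (Real.exp 1, l)) ⊆ {Real.exp 1} := by
        intro x hx
        rw [Finset.mem_image] at hx
        obtain ⟨l, -, rfl⟩ := hx
        exact Finset.mem_singleton_self _
      have h2 := Finset.card_le_card h1
      rw [Finset.card_singleton] at h2
      omega) C
  filter_upwards [h] with m hm
  obtain ⟨i, hi⟩ := hm
  refine ⟨![b, b'] i, ?_, fun l hl => hi (Real.exp 1, l) (Finset.mem_image_of_mem _ hl)⟩
  fin_cases i
  · exact Or.inl rfl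
  · exact Or.inr rfl

/-- the number `α exp (x e + y)` of the triple `(α, x, y)` -/
noncomputable def value (p : ℝ × ℚ × ℚ) : ℝ := p.1 * ex p.2.1 p.2.2

lemma linked_two {p r : ℝ × ℚ × ℚ} (hp : IsAlgebraic ℚ p.1 ∧ p.1 ≠ 0) (hr : IsAlgebraic ℚ r.1 ∧ r.1 ≠ 0)
    (h : p.2.1 * r.2.2 ≠ p.2.2 * r.2.1) : Linked ℚ (Real.exp 1) (value p) (value r) := by
  set F := IntermediateField.adjoin ℚ ({value p, value r} : Set ℝ) with hF
  have hu : value p ∈ F := IntermediateField.subset_adjoin ℚ _ (Or.inl rfl)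
  have hv : value r ∈ F := IntermediateField.subset_adjoin ℚ _ (Or.inr rfl)
  have h1 : IsAlgebraic F (value p) := isAlgebraic_algebraMap (⟨_, hu⟩ : F)
  have h2 : IsAlgebraic F (value r) := isAlgebraic_algebraMap (⟨_, hv⟩ : F)
  exact e_of_two (F := F) (hp.1.tower_top F) (hr.1.tower_top F) hp.2 hr.2 h h1 h2

lemma linked_one (hee : IsAlgebraic ℚ (Real.exp (Real.exp 1))) {p : ℝ × ℚ × ℚ}
    (hp : IsAlgebraic ℚ p.1 ∧ p.1 ≠ 0) (h : p.2.2 ≠ 0) : Linked ℚ (Real.exp 1) (value p) (value p) := by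
  set F := IntermediateField.adjoin ℚ ({value p, value p} : Set ℝ) with hF
  have hu : value p ∈ F := IntermediateField.subset_adjoin ℚ _ (Or.inl rfl)
  have h1 : IsAlgebraic F (value p) := isAlgebraic_algebraMap (⟨_, hu⟩ : F)
  exact e_of_one (F := F) (hp.1.tower_top F) hp.2 h (hee.tower_top F) h1

theorem part2 {b b' : ℕ} (hb : 2 ≤ b) (hb' : 2 ≤ b') (hbb : Independent b b') (P : Finset (ℝ × ℚ × ℚ))
    (hP : ∀ p ∈ P, IsAlgebraic ℚ p.1 ∧ p.1 ≠ 0) (C : ℝ) : ∀ᶠ m : ℕ in atTop, ∃ d, (d = b ∨ d = b') ∧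
      ∀ p ∈ P, ∀ r ∈ P, p.2.1 * r.2.2 ≠ p.2.2 * r.2.1 →
        C * m < max (blocks d (value p) m : ℝ) (blocks d (value r) m) := by
  classical
  have h := pairs hb hb' hbb (((P ×ˢ P).filter fun p => p.1.2.1 * p.2.2.2 ≠ p.1.2.2 * p.2.2.1).image
    fun p => (value p.1, value p.2)) (by
      intro l hl
      rw [Finset.mem_image] at hl
      obtain ⟨p, hp, rfl⟩ := hl
      rw [Finset.mem_filter, Finset.mem_product] at hp
      exact linked_two (hP _ hp.1.1) (hP _ hp.1.2) hp.2) C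
  filter_upwards [h] with m hm
  obtain ⟨d, hd, hm⟩ := hm
  refine ⟨d, hd, fun p hp r hr hpr => ?_⟩
  have hmem : (p, r) ∈ (P ×ˢ P).filter fun p => p.1.2.1 * p.2.2.2 ≠ p.1.2.2 * p.2.2.1 :=
    Finset.mem_filter.2 ⟨Finset.mem_product.2 ⟨hp, hr⟩, hpr⟩
  have h2 := hm (value p, value r) (Finset.mem_image.2 ⟨(p, r), hmem, rfl⟩)
  exact h2

theorem part3 {b b' : ℕ} (hb : 2 ≤ b) (hb' : 2 ≤ b') (hbb : Independent b b')
    (hee : IsAlgebraic ℚ (Real.exp (Real.exp 1))) (P : Finset (ℝ × ℚ × ℚ))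
    (hP : ∀ p ∈ P, IsAlgebraic ℚ p.1 ∧ p.1 ≠ 0 ∧ p.2.2 ≠ 0) (C : ℝ) :
    ∀ᶠ m : ℕ in atTop, ∃ d, (d = b ∨ d = b') ∧ ∀ p ∈ P, C * m < (blocks d (value p) m : ℝ) := by
  classical
  have h := pairs hb hb' hbb (P.image fun p => (value p, value p)) (by
      intro l hl
      rw [Finset.mem_image] at hl
      obtain ⟨p, hp, rfl⟩ := hl
      exact linked_one hee ⟨(hP p hp).1, (hP p hp).2.1⟩ (hP p hp).2.2) C
  filter_upwards [h] with m hm
  obtain ⟨d, hd, hm⟩ := hm
  refine ⟨d, hd, fun p hp => ?_⟩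
  have h1 := hm (value p, value p) (Finset.mem_image.2 ⟨p, hp, rfl⟩)
  rwa [max_self] at h1

/-- see the text at the beginning of the file -/
theorem result :
    -- (1)
    (∀ S : Set ℕ, S.Infinite → ∀ (I : Type) (A : I → Set ℕ), (∀ i, ∀ b ∈ A i, 2 ≤ b) →
      (∀ i j, i ≠ j → group (A i) ⊓ group (A j) = ⊥) → {i | ¬ Free (lowField S (A i))}.Subsingleton) ∧
    ∀ b b' : ℕ, 2 ≤ b → 2 ≤ b' → Independent b b' →
      -- (1), single bases
      group {b} ⊓ group {b'} = ⊥ ∧
      -- (2)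
      (∀ P : Finset (ℝ × ℚ × ℚ), (∀ p ∈ P, IsAlgebraic ℚ p.1 ∧ p.1 ≠ 0) → ∀ C : ℝ, ∀ᶠ m : ℕ in atTop,
        ∃ d, (d = b ∨ d = b') ∧ ∀ p ∈ P, ∀ r ∈ P, p.2.1 * r.2.2 ≠ p.2.2 * r.2.1 →
          C * m < max (blocks d (value p) m : ℝ) (blocks d (value r) m)) ∧
      -- (3)
      (IsAlgebraic ℚ (Real.exp (Real.exp 1)) → ∀ P : Finset (ℝ × ℚ × ℚ),
        (∀ p ∈ P, IsAlgebraic ℚ p.1 ∧ p.1 ≠ 0 ∧ p.2.2 ≠ 0) → ∀ C : ℝ, ∀ᶠ m : ℕ in atTop,
          ∃ d, (d = b ∨ d = b') ∧ ∀ p ∈ P, C * m < (blocks d (value p) m : ℝ)) ∧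
      -- (4)
      ∀ q : ℚ, q ≠ 0 → ∀ C : ℝ, (∃ᶠ m : ℕ in atTop, (blocks b (Real.exp (Real.exp 1 + q)) m : ℝ) ≤ C * m ∧
        (blocks b' (Real.exp (Real.exp 1 + q)) m : ℝ) ≤ C * m) → Transcendental ℚ (Real.exp (Real.exp 1)) := by
  classical
  refine ⟨fun S hS I A hA hAA i hi j hj => ?_, fun b b' hb hb' hbb =>
    ⟨Pool.Agent.TH796.AL.Ai.group_inf hb hb' hbb, fun P hP C => part2 hb hb' hbb P hP C,
      fun hee P hP C => part3 hb hb' hbb hee P hP C, fun q hq C hf hee => ?_⟩⟩
  · by_contra hne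
    rcases pair hS (hA i) (hA j) (hAA i j hne) with h | h
    · exact hi (free_of h)
    · exact hj (free_of h)
  · obtain ⟨p, hp⟩ : ∃ p : ℝ × ℚ × ℚ, p = (1, 1, q) := ⟨_, rfl⟩
    have hv : value p = Real.exp (Real.exp 1 + q) := by
      rw [hp, value, ex]
      push_cast
      rw [one_mul, one_mul]
    have h := part3 hb hb' hbb hee {p} (by
      intro r hr
      rw [Finset.mem_singleton] at hr
      rw [hr, hp]
      exact ⟨isAlgebraic_one, one_ne_zero, hq⟩) C
    obtain ⟨m, hm, d, hd, hm'⟩ := (hf.and_eventually h).exists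
    have h1 := hm' p (Finset.mem_singleton_self p)
    rw [hv] at h1
    rcases hd with rfl | rfl
    · exact absurd hm.1 (not_le.2 h1)
    · exact absurd hm.2 (not_le.2 h1)

end Pool.Agent.Results.MP_58ae59_nt.TwoBases
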